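import Mathlib

/-! Permanents of matrices `1 + (x_i - x_j)`: expansion in monomial symmetric functions. -/

namespace Pool.Agent.V11294.Perm

open Finset Equiv

section Count

variable {α : Type*} [Fintype α] [DecidableEq α]

theorem exists_perm_map {T1 T2 : Finset α} (h : T1.card = T2.card) :
    ∃ π : Perm α, T1.map π.toEmbedding = T2 := by
  classical
  have e : {x // x ∈ T1} ≃ {x // x ∈ T2} := Finset.equivOfCardEq h
  refine ⟨e.extendSubtype, ?_⟩
  ext y
  simp only [Finset.mem_map, Equiv.coe_toEmbedding]
  constructor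
  · rintro ⟨x, hx, rfl⟩
    exact e.extendSubtype_mem x hx
  · intro hy
    refine ⟨e.symm ⟨y, hy⟩, (e.symm ⟨y, hy⟩).2, ?_⟩
    rw [e.extendSubtype_apply_of_mem _ (e.symm ⟨y, hy⟩).2]
    simp

theorem sum_perm_map (g : Finset α → ℤ) (R : Finset α) :
    ∑ σ : Perm α, g (R.map σ.toEmbedding) =
      (R.card.factorial * (Fintype.card α - R.card).factorial : ℕ) *
        ∑ T ∈ powersetCard R.card univ, g T := by
  classical
  set c : Finset α → ℕ := fun T => #{σ : Perm α | R.map σ.toEmbedding = T} with hc
  have hconst : ∀ T ∈ powersetCard R.card (univ : Finset α), c T = c R := by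
    intro T hT
    have hT' : R.card = T.card := ((mem_powersetCard.1 hT).2).symm
    obtain ⟨π, hπ⟩ := exists_perm_map hT'
    simp only [hc]
    symm
    apply Finset.card_bij (fun σ _ => σ.trans π)
    · intro σ hσ
      simp only [mem_filter, mem_univ, true_and] at hσ ⊢
      rw [← hπ]
      conv_rhs => rw [← hσ]
      rw [Finset.map_map]
      rfl
    · intro σ _ τ _ h
      ext x
      have := congrArg (fun f => f x) h
      simpa using this
    · intro τ hτ
      refine ⟨τ.trans π.symm, ?_, ?_⟩
      · simp only [mem_filter, mem_univ, true_and] at hτ ⊢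
        have : R.map (τ.trans π.symm).toEmbedding = (R.map τ.toEmbedding).map π.symm.toEmbedding := by
          rw [Finset.map_map]; rfl
        rw [this, hτ, ← hπ, Finset.map_map]
        ext y
        simp
      · ext x; simp
  have key : ∀ g : Finset α → ℤ, ∑ σ : Perm α, g (R.map σ.toEmbedding) =
      (c R : ℤ) * ∑ T ∈ powersetCard R.card univ, g T := by
    intro g
    have hmaps : ∀ σ ∈ (univ : Finset (Perm α)), R.map σ.toEmbedding ∈
        powersetCard R.card (univ : Finset α) := by
      intro σ _
      rw [mem_powersetCard]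
      exact ⟨subset_univ _, by simp⟩
    rw [← Finset.sum_fiberwise_of_maps_to hmaps, Finset.mul_sum]
    refine Finset.sum_congr rfl fun T hT => ?_
    rw [← hconst T hT]
    simp only [hc]
    rw [Finset.sum_congr rfl (g := fun _ => g T)]
    · simp
    · intro σ hσ
      simp only [mem_filter, mem_univ, true_and] at hσ
      rw [hσ]
  have h1 := key (fun _ => 1)
  simp only [sum_const, card_univ, nsmul_eq_mul, mul_one, card_powersetCard, Fintype.card_perm] at h1
  have hle : R.card ≤ Fintype.card α := Finset.card_le_univ R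
  have h2 : (c R) * (Fintype.card α).choose R.card = (Fintype.card α).factorial := by
    exact_mod_cast h1.symm
  have h3 := Nat.choose_mul_factorial_mul_factorial hle
  have hpos : 0 < (Fintype.card α).choose R.card := Nat.choose_pos hle
  have h4 : c R = R.card.factorial * (Fintype.card α - R.card).factorial := by
    apply Nat.eq_of_mul_eq_mul_right hpos
    rw [h2, ← h3]; ring
  rw [key g, h4]

/-- The permanent of the matrix `x (σ i) - x i` on the whole type. -/
theorem perm_diff (x : α → ℤ) :
    ∑ σ : Perm α, ∏ i, (x (σ i) - x i) =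
      ∑ R : Finset α, ∑ T : Finset α, if R.card + T.card = Fintype.card α then
        ((-1) ^ T.card * (R.card.factorial * T.card.factorial : ℤ)) * ((∏ i ∈ R, x i) * ∏ i ∈ T, x i)
      else 0 := by
  classical
  have h1 : ∀ σ : Perm α, ∏ i, (x (σ i) - x i) =
      ∑ Q : Finset α, (∏ i ∈ Q, x (σ i)) * ∏ i ∈ Qᶜ, (-x i) := by
    intro σ
    simp only [sub_eq_add_neg]
    rw [Fintype.prod_add]
  simp only [h1]
  rw [Finset.sum_comm]
  have h2 : ∀ Q : Finset α, ∑ σ : Perm α, (∏ i ∈ Q, x (σ i)) * ∏ i ∈ Qᶜ, (-x i) =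
      ((-1) ^ (Qᶜ).card * ∏ i ∈ Qᶜ, x i) * ((Q.card.factorial * (Qᶜ).card.factorial : ℕ) *
        ∑ R ∈ powersetCard Q.card univ, ∏ i ∈ R, x i) := by
    intro Q
    have := sum_perm_map (fun T => ∏ i ∈ T, x i) Q
    simp only [Finset.prod_map, Equiv.coe_toEmbedding] at this
    rw [← Finset.sum_mul, this, Finset.prod_neg, Finset.card_compl]
    ring
  simp only [h2]
  rw [Finset.sum_comm (s := (univ : Finset (Finset α))) (t := (univ : Finset (Finset α)))]
  refine Finset.sum_bij (fun Q _ => Qᶜ) (fun _ _ => mem_univ _) (fun a _ b _ h => compl_injective h)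
    (fun T _ => ⟨Tᶜ, mem_univ _, compl_compl T⟩) ?_
  intro Q _
  have hcard : Q.card + (Qᶜ).card = Fintype.card α := Finset.card_add_card_compl Q
  rw [← Finset.sum_filter]
  have hset : (univ.filter fun R : Finset α => R.card + (Qᶜ).card = Fintype.card α) =
      powersetCard Q.card univ := by
    ext R
    simp only [mem_filter, mem_univ, true_and, mem_powersetCard, subset_univ]
    omega
  rw [hset, Finset.mul_sum, Finset.mul_sum]
  refine Finset.sum_congr rfl fun R hR => ?_
  rw [(mem_powersetCard.1 hR).2]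
  push_cast
  ring

end Count

section Expand

variable {ι : Type*} [Fintype ι] [DecidableEq ι]

/-- The sum over `S` and pairs of subsets of `S`. -/
def SS (x : ι → ℤ) (U : Finset ι) (K : ℕ → ℕ → ℕ → ℤ) : ℤ :=
  ∑ S ∈ U.powerset, ∑ R ∈ S.powerset, ∑ T ∈ S.powerset,
    K S.card R.card T.card * ((∏ i ∈ R, x i) * ∏ i ∈ T, x i)

/-- The kernel of the permanent. -/
def KK (s r t : ℕ) : ℤ :=
  if r + t = s then ((-1) ^ t * (r.factorial * t.factorial : ℤ)) else 0

theorem sum_finset_subtype (S : Finset ι) (f : Finset ι → ℤ) :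
    ∑ R : Finset {x // x ∈ S}, f (R.map (Function.Embedding.subtype _)) = ∑ R ∈ S.powerset, f R := by
  classical
  refine Finset.sum_bij (fun R _ => R.map (Function.Embedding.subtype _)) ?_ ?_ ?_ ?_
  · intro R _
    rw [mem_powerset]
    intro y hy
    simp only [mem_map, Function.Embedding.coe_subtype, Subtype.exists, exists_and_right,
      exists_eq_right] at hy
    obtain ⟨h, _⟩ := hy
    exact h
  · intro a _ b _ h
    exact Finset.map_injective _ h
  · intro T hT
    rw [mem_powerset] at hT
    refine ⟨T.subtype (· ∈ S), mem_univ _, ?_⟩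
    rw [Finset.subtype_map]
    exact Finset.filter_true_of_mem fun y hy => hT hy
  · intro R _; rfl

theorem perm_S (x : ι → ℤ) (S : Finset ι) :
    ∑ σ : Perm {y // y ∈ S}, ∏ i : {y // y ∈ S}, (x (σ i) - x i) =
      ∑ R ∈ S.powerset, ∑ T ∈ S.powerset,
        KK S.card R.card T.card * ((∏ i ∈ R, x i) * ∏ i ∈ T, x i) := by
  classical
  rw [perm_diff (fun i : {y // y ∈ S} => x i)]
  rw [← sum_finset_subtype S]
  refine Finset.sum_congr rfl fun R _ => ?_
  rw [← sum_finset_subtype S]
  refine Finset.sum_congr rfl fun T _ => ?_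
  simp only [KK, Finset.card_map, Finset.prod_map, Function.Embedding.coe_subtype,
    Fintype.card_coe]
  split_ifs <;> ring

theorem permanent_expand (x : ι → ℤ) :
    (Matrix.of fun i l : ι => x i - x l + if i = l then (1 : ℤ) else 0).permanent =
      SS x univ KK := by
  classical
  rw [Matrix.permanent]
  have h1 : ∀ σ : Perm ι, ∏ i, (Matrix.of fun i l : ι => x i - x l + if i = l then (1 : ℤ) else 0)
      (σ i) i = ∑ S : Finset ι, if (∀ i, i ∉ S → σ i = i) then ∏ i ∈ S, (x (σ i) - x i) else 0 := by
    intro σ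
    simp only [Matrix.of_apply]
    rw [Fintype.prod_add]
    refine Finset.sum_congr rfl fun S _ => ?_
    by_cases h : ∀ i, i ∉ S → σ i = i
    · rw [if_pos h]
      have : ∏ i ∈ Sᶜ, (if σ i = i then (1 : ℤ) else 0) = 1 := by
        refine Finset.prod_eq_one fun i hi => ?_
        rw [if_pos (h i (by simpa using hi))]
      rw [this, mul_one]
    · rw [if_neg h]
      push Not at h
      obtain ⟨i, hi, hne⟩ := h
      have : ∏ i ∈ Sᶜ, (if σ i = i then (1 : ℤ) else 0) = 0 :=
        Finset.prod_eq_zero (i := i) (by simpa using hi) (if_neg hne)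
      rw [this, mul_zero]
  simp only [h1]
  rw [Finset.sum_comm, SS, Finset.powerset_univ]
  refine Finset.sum_congr rfl fun S _ => ?_
  rw [← perm_S, ← Finset.sum_filter]
  symm
  refine Finset.sum_bij (fun (σ : Perm {y // y ∈ S}) _ => Equiv.Perm.ofSubtype σ) ?_ ?_ ?_ ?_
  · intro σ _
    rw [mem_filter]
    exact ⟨mem_univ _, fun i hi => Equiv.Perm.ofSubtype_apply_of_not_mem σ hi⟩
  · intro σ _ τ _ h
    exact Equiv.Perm.ofSubtype_injective h
  · intro τ hτ
    rw [mem_filter] at hτ
    have hτ2 : ∀ i, i ∉ S → τ i = i := hτ.2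
    have hmem : ∀ y, y ∈ S ↔ τ y ∈ S := by
      intro y
      constructor
      · intro hy
        by_contra hn
        have h1 := hτ2 _ hn
        have h2 : τ y = y := τ.injective h1
        rw [h2] at hn
        exact hn hy
      · intro hy
        by_contra hn
        rw [hτ2 y hn] at hy
        exact hn hy
    refine ⟨τ.subtypePerm (fun y => (hmem y).symm), mem_univ _, ?_⟩
    apply Equiv.Perm.ofSubtype_subtypePerm
    intro y hy
    by_contra hn
    exact hy (hτ2 y hn)
  · intro σ _
    rw [← Finset.prod_coe_sort S]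
    refine Finset.prod_congr rfl fun i _ => ?_
    rw [Equiv.Perm.ofSubtype_apply_coe]

end Expand

end Pool.Agent.V11294.Perm
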