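import Pool.Agent.V11294.Perm.A

/-! Reorganisation of the sums in terms of the numbers `M(i,j)`. -/

namespace Pool.Agent.V11294.Perm

open Finset Equiv

/-- binomial transform in one variable -/
def Bz : ℕ → (ℕ → ℤ) → ℤ
  | 0, f => f 0
  | k + 1, f => Bz k (fun l => f l + f (l + 1))

/-- binomial transform in two variables -/
def He : ℕ → (ℕ → ℕ → ℤ) → ℤ
  | 0, f => f 0 0
  | j + 1, f => He j (fun r t => f (r + 1) t + f r (t + 1))

theorem He_congr : ∀ (j : ℕ) (f g : ℕ → ℕ → ℤ), (∀ r t, r + t = j → f r t = g r t) → He j f = He j g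
  | 0, f, g, h => h 0 0 rfl
  | j + 1, f, g, h => by
      apply He_congr j
      intro r t hrt
      rw [h (r + 1) t (by omega), h r (t + 1) (by omega)]

theorem Bz_congr : ∀ (k : ℕ) (f g : ℕ → ℤ), (∀ l, f l = g l) → Bz k f = Bz k g := by
  intro k f g h
  have : f = g := funext h
  rw [this]

theorem He_add : ∀ (j : ℕ) (f g : ℕ → ℕ → ℤ), He j (fun r t => f r t + g r t) = He j f + He j g
  | 0, f, g => rfl
  | j + 1, f, g => by
      simp only [He]
      rw [← He_add j]
      apply He_congr
      intro r t _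
      ring

theorem He_zero : ∀ (j : ℕ), He j (fun _ _ => 0) = 0
  | 0 => rfl
  | j + 1 => by
      simp only [He, add_zero]
      exact He_zero j

theorem He_mul (c : ℤ) : ∀ (j : ℕ) (f : ℕ → ℕ → ℤ), He j (fun r t => c * f r t) = c * He j f
  | 0, f => rfl
  | j + 1, f => by
      simp only [He]
      rw [← He_mul c j]
      apply He_congr
      intro r t _
      ring

theorem Bz_zero : ∀ (k : ℕ), Bz k (fun _ => 0) = 0
  | 0 => rfl
  | k + 1 => by
      simp only [Bz, add_zero]
      exact Bz_zero k

theorem Bz_add : ∀ (k : ℕ) (f g : ℕ → ℤ), Bz k (fun l => f l + g l) = Bz k f + Bz k g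
  | 0, f, g => rfl
  | k + 1, f, g => by
      simp only [Bz]
      rw [← Bz_add k]
      apply Bz_congr
      intro l
      ring

theorem Bz_single (c : ℤ) : ∀ (k i : ℕ), Bz k (fun l => if l = i then c else 0) = (k.choose i : ℤ) * c
  | 0, 0 => by simp [Bz]
  | 0, i + 1 => by simp [Bz]
  | k + 1, 0 => by
      simp only [Bz]
      have : (fun l => (if l = 0 then c else 0) + (if l + 1 = 0 then c else 0)) =
          fun l => if l = 0 then c else 0 := by
        funext l; simp
      rw [this, Bz_single c k 0]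
      simp
  | k + 1, i + 1 => by
      simp only [Bz]
      rw [Bz_add, Bz_single c k (i + 1)]
      have : (fun l => if l + 1 = i + 1 then c else 0) = fun l => if l = i then c else 0 := by
        funext l; simp
      rw [this, Bz_single c k i, Nat.choose_succ_succ]
      push_cast
      ring

/-- `g_K(k,i,j)` -/
def gK (K : ℕ → ℕ → ℕ → ℤ) (k i j : ℕ) : ℤ :=
  Bz k (fun l => He j (fun r t => K (l + i + j) (i + r) (i + t)))

section U

variable {ι : Type*} [DecidableEq ι] (x : ι → ℤ)

/-- sum over disjoint pairs -/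
def NN (U : Finset ι) (g : ℕ → ℕ → ℕ → ℤ) : ℤ :=
  ∑ D ∈ U.powerset, ∑ E ∈ (U \ D).powerset,
    g ((U \ D) \ E).card D.card E.card * ((∏ i ∈ D, x i ^ 2) * ∏ i ∈ E, x i)

theorem NN_empty (g : ℕ → ℕ → ℕ → ℤ) : NN x ∅ g = g 0 0 0 := by
  simp [NN]

theorem NN_insert {u : ι} {U : Finset ι} (hu : u ∉ U) (g : ℕ → ℕ → ℕ → ℤ) :
    NN x (insert u U) g = NN x U (fun k i j => g (k + 1) i j) + x u * NN x U (fun k i j => g k i (j + 1))
      + x u ^ 2 * NN x U (fun k i j => g k (i + 1) j) := by
  simp only [NN]
  rw [Finset.sum_powerset_insert hu]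
  congr 1
  · rw [Finset.mul_sum, ← Finset.sum_add_distrib]
    refine Finset.sum_congr rfl fun D hD => ?_
    rw [mem_powerset] at hD
    have huD : u ∉ D := fun h => hu (hD h)
    have e1 : insert u U \ D = insert u (U \ D) := by
      rw [Finset.insert_sdiff_of_notMem _ huD]
    have hu2 : u ∉ U \ D := fun h => hu (Finset.mem_sdiff.1 h).1
    rw [e1, Finset.sum_powerset_insert hu2]
    congr 1
    · refine Finset.sum_congr rfl fun E hE => ?_
      rw [mem_powerset] at hE
      have huE : u ∉ E := fun h => hu2 (hE h)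
      rw [Finset.insert_sdiff_of_notMem _ huE, Finset.card_insert_of_notMem]
      intro h
      exact hu2 (Finset.mem_sdiff.1 h).1
    · rw [Finset.mul_sum]
      refine Finset.sum_congr rfl fun E hE => ?_
      rw [mem_powerset] at hE
      have huE : u ∉ E := fun h => hu2 (hE h)
      have e2 : insert u (U \ D) \ insert u E = (U \ D) \ E := by
        ext y
        simp only [mem_sdiff, mem_insert, not_or]
        constructor
        · rintro ⟨h1 | h1, h2, h3⟩
          · exact absurd h1 h2
          · exact ⟨h1, h3⟩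
        · rintro ⟨h1, h3⟩
          exact ⟨Or.inr h1, fun h => hu2 (by rw [← h]; exact mem_sdiff.2 h1), h3⟩
      rw [e2, Finset.card_insert_of_notMem huE, Finset.prod_insert huE]
      ring
  · rw [Finset.mul_sum]
    refine Finset.sum_congr rfl fun D hD => ?_
    rw [mem_powerset] at hD
    have huD : u ∉ D := fun h => hu (hD h)
    have e1 : insert u U \ insert u D = U \ D := by
      ext y
      simp only [mem_sdiff, mem_insert, not_or]
      constructor
      · rintro ⟨h1 | h1, h2, h3⟩
        · exact absurd h1 h2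
        · exact ⟨h1, h3⟩
      · rintro ⟨h1, h3⟩
        exact ⟨Or.inr h1, fun h => hu (by rw [← h]; exact h1), h3⟩
    rw [e1, Finset.mul_sum, Finset.card_insert_of_notMem huD, Finset.prod_insert huD]
    refine Finset.sum_congr rfl fun E hE => ?_
    ring

theorem NN_congr (U : Finset ι) {g g' : ℕ → ℕ → ℕ → ℤ} (h : ∀ k i j, g k i j = g' k i j) :
    NN x U g = NN x U g' := by
  have : g = g' := by funext k i j; exact h k i j
  rw [this]

theorem NN_add (U : Finset ι) (g g' : ℕ → ℕ → ℕ → ℤ) :
    NN x U (fun k i j => g k i j + g' k i j) = NN x U g + NN x U g' := by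
  simp only [NN, ← Finset.sum_add_distrib, add_mul]

theorem SS_insert [Fintype ι] {u : ι} {U : Finset ι} (hu : u ∉ U) (K : ℕ → ℕ → ℕ → ℤ) :
    SS x (insert u U) K = SS x U (fun s r t => K s r t + K (s + 1) r t)
      + x u * SS x U (fun s r t => K (s + 1) (r + 1) t + K (s + 1) r (t + 1))
      + x u ^ 2 * SS x U (fun s r t => K (s + 1) (r + 1) (t + 1)) := by
  simp only [SS]
  rw [Finset.sum_powerset_insert hu, Finset.mul_sum, Finset.mul_sum, ← Finset.sum_add_distrib,
    ← Finset.sum_add_distrib, ← Finset.sum_add_distrib]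
  refine Finset.sum_congr rfl fun S hS => ?_
  rw [mem_powerset] at hS
  have huS : u ∉ S := fun h => hu (hS h)
  rw [Finset.sum_powerset_insert huS]
  have h1 : ∀ R ∈ S.powerset, ∑ T ∈ (insert u S).powerset,
      K (insert u S).card R.card T.card * ((∏ i ∈ R, x i) * ∏ i ∈ T, x i) =
      ∑ T ∈ S.powerset, (K (S.card + 1) R.card T.card + x u * K (S.card + 1) R.card (T.card + 1)) *
        ((∏ i ∈ R, x i) * ∏ i ∈ T, x i) := by
    intro R _
    rw [Finset.sum_powerset_insert huS, ← Finset.sum_add_distrib]
    refine Finset.sum_congr rfl fun T hT => ?_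
    rw [mem_powerset] at hT
    have huT : u ∉ T := fun h => huS (hT h)
    rw [Finset.card_insert_of_notMem huS, Finset.card_insert_of_notMem huT, Finset.prod_insert huT]
    ring
  have h2 : ∀ R ∈ S.powerset, ∑ T ∈ (insert u S).powerset,
      K (insert u S).card (insert u R).card T.card * ((∏ i ∈ insert u R, x i) * ∏ i ∈ T, x i) =
      ∑ T ∈ S.powerset, (x u * K (S.card + 1) (R.card + 1) T.card +
        x u ^ 2 * K (S.card + 1) (R.card + 1) (T.card + 1)) *
        ((∏ i ∈ R, x i) * ∏ i ∈ T, x i) := by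
    intro R hR
    rw [mem_powerset] at hR
    have huR : u ∉ R := fun h => huS (hR h)
    rw [Finset.sum_powerset_insert huS, ← Finset.sum_add_distrib]
    refine Finset.sum_congr rfl fun T hT => ?_
    rw [mem_powerset] at hT
    have huT : u ∉ T := fun h => huS (hT h)
    rw [Finset.card_insert_of_notMem huS, Finset.card_insert_of_notMem huT,
      Finset.card_insert_of_notMem huR, Finset.prod_insert huT, Finset.prod_insert huR]
    ring
  rw [Finset.sum_congr rfl h1, Finset.sum_congr rfl h2]
  simp only [Finset.mul_sum, ← Finset.sum_add_distrib]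
  refine Finset.sum_congr rfl fun R _ => ?_
  refine Finset.sum_congr rfl fun T _ => ?_
  ring

theorem SS_empty [Fintype ι] (K : ℕ → ℕ → ℕ → ℤ) : SS x ∅ K = K 0 0 0 := by
  simp [SS]

theorem SS_eq_NN [Fintype ι] (U : Finset ι) : ∀ K : ℕ → ℕ → ℕ → ℤ, SS x U K = NN x U (gK K) := by
  induction U using Finset.induction_on with
  | empty => intro K; rw [SS_empty, NN_empty]; simp [gK, Bz, He]
  | insert u U hu ih =>
    intro K
    rw [SS_insert x hu, NN_insert x hu, ih, ih, ih]
    congr 1
    · congr 1
      · apply NN_congr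
        intro k i j
        simp only [gK, Bz]
        apply Bz_congr
        intro l
        rw [← He_add]
        apply He_congr
        intro r t _
        rw [show l + 1 + i + j = l + i + j + 1 by ring]
    · congr 1
      apply NN_congr
      intro k i j
      simp only [gK]
      apply Bz_congr
      intro l
      apply He_congr
      intro r t _
      rw [show l + (i + 1) + j = l + i + j + 1 by ring, show i + 1 + r = i + r + 1 by ring,
        show i + 1 + t = i + t + 1 by ring]

/-- two-set sums -/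
def QQ (U : Finset ι) (F : ℕ → ℕ → ℤ) : ℤ :=
  ∑ R ∈ U.powerset, ∑ T ∈ U.powerset, F R.card T.card * ((∏ i ∈ R, x i) * ∏ i ∈ T, x i)

theorem QQ_insert {u : ι} {U : Finset ι} (hu : u ∉ U) (F : ℕ → ℕ → ℤ) :
    QQ x (insert u U) F = QQ x U F + x u * QQ x U (fun r t => F (r + 1) t + F r (t + 1))
      + x u ^ 2 * QQ x U (fun r t => F (r + 1) (t + 1)) := by
  simp only [QQ]
  rw [Finset.sum_powerset_insert hu]
  have h1 : ∀ R ∈ U.powerset, ∑ T ∈ (insert u U).powerset,
      F R.card T.card * ((∏ i ∈ R, x i) * ∏ i ∈ T, x i) =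
      ∑ T ∈ U.powerset, (F R.card T.card + x u * F R.card (T.card + 1)) *
        ((∏ i ∈ R, x i) * ∏ i ∈ T, x i) := by
    intro R _
    rw [Finset.sum_powerset_insert hu, ← Finset.sum_add_distrib]
    refine Finset.sum_congr rfl fun T hT => ?_
    rw [mem_powerset] at hT
    have huT : u ∉ T := fun h => hu (hT h)
    rw [Finset.card_insert_of_notMem huT, Finset.prod_insert huT]
    ring
  have h2 : ∀ R ∈ U.powerset, ∑ T ∈ (insert u U).powerset,
      F (insert u R).card T.card * ((∏ i ∈ insert u R, x i) * ∏ i ∈ T, x i) =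
      ∑ T ∈ U.powerset, (x u * F (R.card + 1) T.card +
        x u ^ 2 * F (R.card + 1) (T.card + 1)) *
        ((∏ i ∈ R, x i) * ∏ i ∈ T, x i) := by
    intro R hR
    rw [mem_powerset] at hR
    have huR : u ∉ R := fun h => hu (hR h)
    rw [Finset.sum_powerset_insert hu, ← Finset.sum_add_distrib]
    refine Finset.sum_congr rfl fun T hT => ?_
    rw [mem_powerset] at hT
    have huT : u ∉ T := fun h => hu (hT h)
    rw [Finset.card_insert_of_notMem huT,
      Finset.card_insert_of_notMem huR, Finset.prod_insert huT, Finset.prod_insert huR]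
    ring
  rw [Finset.sum_congr rfl h1, Finset.sum_congr rfl h2]
  simp only [Finset.mul_sum, ← Finset.sum_add_distrib]
  refine Finset.sum_congr rfl fun R _ => ?_
  refine Finset.sum_congr rfl fun T _ => ?_
  ring

theorem QQ_eq_NN (U : Finset ι) : ∀ F : ℕ → ℕ → ℤ, QQ x U F =
    NN x U (fun _ i j => He j (fun r t => F (i + r) (i + t))) := by
  induction U using Finset.induction_on with
  | empty => intro F; rw [NN_empty]; simp [QQ, He]
  | insert u U hu ih =>
    intro F
    rw [QQ_insert x hu, NN_insert x hu, ih, ih, ih]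
    congr 1
    congr 1
    apply NN_congr
    intro k i j
    apply He_congr
    intro r t _
    rw [show i + 1 + r = i + r + 1 by ring, show i + 1 + t = i + t + 1 by ring]

/-- elementary symmetric sums -/
def ee (U : Finset ι) (a : ℕ) : ℤ := ∑ R ∈ powersetCard a U, ∏ i ∈ R, x i

/-- the monomial symmetric sums `m_{2^i 1^j}` -/
def MM (U : Finset ι) (i j : ℕ) : ℤ := NN x U (fun _ i' j' => if i' = i ∧ j' = j then 1 else 0)

theorem ee_mul (U : Finset ι) (a b : ℕ) : ee x U a * ee x U b =
    QQ x U (fun r t => if r = a ∧ t = b then 1 else 0) := by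
  have h : ∀ (c : ℕ), ee x U c = ∑ R ∈ U.powerset, (if R.card = c then 1 else 0) * ∏ i ∈ R, x i := by
    intro c
    rw [ee, Finset.powersetCard_eq_filter, Finset.sum_filter]
    refine Finset.sum_congr rfl fun R _ => ?_
    split_ifs <;> simp
  rw [h a, h b, Finset.sum_mul_sum, QQ]
  refine Finset.sum_congr rfl fun R _ => ?_
  refine Finset.sum_congr rfl fun T _ => ?_
  by_cases h1 : R.card = a <;> by_cases h2 : T.card = b <;> simp [h1, h2]

theorem NN_eq_sum (U : Finset ι) (g : ℕ → ℕ → ℕ → ℤ) :
    NN x U g = ∑ i ∈ range (U.card + 1), ∑ j ∈ range (U.card + 1), g (U.card - i - j) i j * MM x U i j := by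
  simp only [MM, NN, Finset.mul_sum]
  have h1 : ∀ i ∈ range (U.card + 1), ∑ j ∈ range (U.card + 1), ∑ D ∈ U.powerset,
      ∑ E ∈ (U \ D).powerset, g (U.card - i - j) i j *
        ((if D.card = i ∧ E.card = j then 1 else 0) * ((∏ i ∈ D, x i ^ 2) * ∏ i ∈ E, x i)) =
      ∑ D ∈ U.powerset, ∑ E ∈ (U \ D).powerset, ∑ j ∈ range (U.card + 1), g (U.card - i - j) i j *
        ((if D.card = i ∧ E.card = j then 1 else 0) * ((∏ i ∈ D, x i ^ 2) * ∏ i ∈ E, x i)) := by
    intro i _
    rw [Finset.sum_comm]
    refine Finset.sum_congr rfl fun D _ => ?_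
    rw [Finset.sum_comm]
  rw [Finset.sum_congr rfl h1, Finset.sum_comm]
  refine Finset.sum_congr rfl fun D hD => ?_
  rw [Finset.sum_comm]
  refine Finset.sum_congr rfl fun E hE => ?_
  rw [mem_powerset] at hD hE
  have hDc : D.card ∈ range (U.card + 1) := by
    rw [mem_range]; exact Nat.lt_succ_of_le (card_le_card hD)
  have hEU : E ⊆ U := hE.trans Finset.sdiff_subset
  have hEc : E.card ∈ range (U.card + 1) := by
    rw [mem_range]; exact Nat.lt_succ_of_le (card_le_card hEU)
  rw [Finset.sum_eq_single D.card, Finset.sum_eq_single E.card]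
  · rw [Finset.card_sdiff_of_subset hE, Finset.card_sdiff_of_subset hD]
    simp
  · intro j _ hj
    rw [if_neg (fun h => hj h.2.symm)]; ring
  · intro h; exact absurd hEc h
  · intro i _ hi
    refine Finset.sum_eq_zero fun j _ => ?_
    rw [if_neg (fun h => hi h.1.symm)]; ring
  · intro h; exact absurd hDc h

end U

end Pool.Agent.V11294.Perm
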