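import Pool.Agent.V11294.Perm.B

/-! Evaluation of the kernel and the combinatorial identities. -/

namespace Pool.Agent.V11294.Perm

open Finset Equiv

def GG : ℕ → ℕ → ℕ → ℤ
  | 0, a, b => a.factorial * b.factorial
  | n + 1, a, b => GG n a (b + 1) - GG n (a + 1) b

theorem He_GG : ∀ (j a b : ℕ), He j (fun r t => (-1) ^ t * (((b + r).factorial : ℤ) * (a + t).factorial)) =
    GG j a b
  | 0, a, b => by simp [He, GG, mul_comm]
  | j + 1, a, b => by
      simp only [He, GG]
      rw [He_add, ← He_GG j a (b + 1), ← He_GG j (a + 1) b, sub_eq_add_neg]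
      congr 1
      · apply He_congr
        intro r t _
        rw [show b + 1 + r = b + (r + 1) by ring]
      · rw [← neg_one_mul (He j _), ← He_mul]
        apply He_congr
        intro r t _
        rw [show a + 1 + t = a + (t + 1) by ring, pow_succ]
        ring

theorem gK_KK (k i j : ℕ) : gK KK k i j = (k.choose i : ℤ) * ((-1) ^ i * GG j i i) := by
  rw [← Bz_single]
  unfold gK
  apply Bz_congr
  intro l
  by_cases h : l = i
  · subst h
    rw [if_pos rfl, ← He_GG, ← He_mul]
    apply He_congr
    intro r t hrt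
    rw [KK, if_pos (by omega), pow_add]
    ring
  · rw [if_neg h, ← He_zero j]
    apply He_congr
    intro r t hrt
    rw [KK, if_neg (by omega)]

theorem GG_add : ∀ (n a b : ℕ), GG n (a + 1) b + GG n a (b + 1) = (n + a + b + 2) * GG n a b
  | 0, a, b => by
      simp only [GG, Nat.factorial_succ]
      push_cast
      ring
  | n + 1, a, b => by
      have h1 := GG_add n a (b + 1)
      have h2 := GG_add n (a + 1) b
      simp only [GG] at *
      push_cast at *
      linear_combination h1 - h2

theorem GG_rec : ∀ (n a b : ℕ), GG (n + 2) a b = ((b : ℤ) - a) * GG (n + 1) a b +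
    (n + 1) * (n + a + b + 2) * GG n a b
  | 0, a, b => by
      simp only [GG, Nat.factorial_succ]
      push_cast
      ring
  | n + 1, a, b => by
      have h1 := GG_rec n a (b + 1)
      have h2 := GG_rec n (a + 1) b
      have h3 := GG_add (n + 1) a b
      have e1 : GG (n + 1 + 2) a b = GG (n + 2) a (b + 1) - GG (n + 2) (a + 1) b := rfl
      have e2 : GG (n + 2) a b = GG (n + 1) a (b + 1) - GG (n + 1) (a + 1) b := rfl
      have e3 : GG (n + 1) a b = GG n a (b + 1) - GG n (a + 1) b := rfl
      rw [e1, h1, h2, show n + 1 + 1 = n + 2 by ring, e2]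
      push_cast at *
      linear_combination h3 + (n + 1 : ℤ) * (n + a + b + 3) * (-e3)

theorem GG_odd (i : ℕ) : ∀ q : ℕ, GG (2 * q + 1) i i = 0
  | 0 => by
      simp only [GG, Nat.factorial_succ]
      push_cast
      ring
  | q + 1 => by
      rw [show 2 * (q + 1) + 1 = (2 * q + 1) + 2 by ring, GG_rec, GG_odd i q]
      ring

theorem GG_even (i : ℕ) : ∀ q : ℕ, GG (2 * q) i i * q.factorial =
    i.factorial * (i + q).factorial * (2 * q).factorial
  | 0 => by simp [GG]
  | q + 1 => by
      have h := GG_even i q
      rw [show 2 * (q + 1) = (2 * q) + 2 by ring, GG_rec, show i + (q + 1) = (i + q) + 1 by ring,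
        Nat.factorial_succ (i + q), Nat.factorial_succ q, Nat.factorial_succ (2 * q + 1),
        Nat.factorial_succ (2 * q)]
      push_cast
      linear_combination (2 * q + 1 : ℤ) * (2 * q + i + i + 2) * (q + 1) * h

/-- coefficients of the Lucas polynomials -/
def el (m : ℕ) : ℕ → ℤ
  | 0 => 1
  | i + 1 => (-1) ^ (i + 1) * (((m - (i + 1)).choose (i + 1) : ℤ) + ((m - (i + 1) - 1).choose i : ℤ))

theorem el_factorial {m i : ℕ} (hm : 1 ≤ m) (h : 2 * i ≤ m) :
    el m i * (i.factorial * (m - 2 * i).factorial) = (-1) ^ i * (m * (m - i - 1).factorial) := by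
  rcases i with _ | i
  · simp only [el, pow_zero, Nat.factorial_zero, Nat.cast_one, one_mul, mul_zero, Nat.sub_zero]
    obtain ⟨k, rfl⟩ : ∃ k, m = k + 1 := ⟨m - 1, by omega⟩
    rw [Nat.factorial_succ]
    simp
  · obtain ⟨k, rfl⟩ : ∃ k, m = k + 2 * (i + 1) := ⟨m - 2 * (i + 1), by omega⟩
    simp only [el]
    have e1 : k + 2 * (i + 1) - (i + 1) = k + (i + 1) := by omega
    have e2 : k + (i + 1) - 1 = k + i := by omega
    have e3 : k + 2 * (i + 1) - 2 * (i + 1) = k := by omega
    rw [e1, e2, e3]
    have h1 : (k + (i + 1)).choose (i + 1) * (i + 1).factorial * k.factorial = (k + (i + 1)).factorial := by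
      have := Nat.choose_mul_factorial_mul_factorial (n := k + (i + 1)) (k := i + 1) (by omega)
      rwa [show k + (i + 1) - (i + 1) = k by omega] at this
    have h2 : (k + i).choose i * i.factorial * k.factorial = (k + i).factorial := by
      have := Nat.choose_mul_factorial_mul_factorial (n := k + i) (k := i) (by omega)
      rwa [show k + i - i = k by omega] at this
    have h1' : ((k + (i + 1)).choose (i + 1) : ℤ) * (i + 1).factorial * k.factorial = (k + (i + 1)).factorial := by
      exact_mod_cast h1
    have h2' : ((k + i).choose i : ℤ) * i.factorial * k.factorial = (k + i).factorial := by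
      exact_mod_cast h2
    have h3 : ((k + (i + 1)).factorial : ℤ) = (k + i + 1) * (k + i).factorial := by
      rw [show k + (i + 1) = (k + i) + 1 by ring, Nat.factorial_succ]; push_cast; ring
    have h4 : ((i + 1).factorial : ℤ) = (i + 1) * i.factorial := by
      rw [Nat.factorial_succ]; push_cast; ring
    push_cast
    linear_combination (-1 : ℤ) ^ (i + 1) * (h1' + h3) + (-1) ^ (i + 1) * (i + 1 : ℤ) * h2' +
      (-1 : ℤ) ^ (i + 1) * ((k + i).choose i : ℤ) * k.factorial * h4

theorem S_sum : ∀ (a n c : ℕ), a ≤ n → ∑ i ∈ range (a + 1), (-1 : ℤ) ^ i * (a.choose i * (n - i).choose (c + a)) =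
    ((n - a).choose c : ℤ)
  | 0, n, c, _ => by simp
  | a + 1, n, c, h => by
      obtain ⟨n', rfl⟩ : ∃ n', n = n' + 1 := ⟨n - 1, by omega⟩
      have h1 := S_sum a (n' + 1) (c + 1) (by omega)
      have h2 := S_sum a n' (c + 1) (by omega)
      have e1 : n' + 1 - a = (n' - a) + 1 := by omega
      have e2 : n' + 1 - (a + 1) = n' - a := by omega
      have e3 : ((n' + 1 - a).choose (c + 1) : ℤ) = ((n' - a).choose c : ℤ) + ((n' - a).choose (c + 1) : ℤ) := by
        rw [e1, Nat.choose_succ_succ]; push_cast; ring
      rw [e2]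
      have key : ∑ i ∈ range (a + 1 + 1), (-1 : ℤ) ^ i * ((a + 1).choose i * (n' + 1 - i).choose (c + (a + 1))) =
          ∑ i ∈ range (a + 1), (-1 : ℤ) ^ i * (a.choose i * (n' + 1 - i).choose (c + 1 + a)) -
          ∑ i ∈ range (a + 1), (-1 : ℤ) ^ i * (a.choose i * (n' - i).choose (c + 1 + a)) := by
        rw [Finset.sum_range_succ' _ (a + 1)]
        have s1 : ∀ i ∈ range (a + 1), (-1 : ℤ) ^ (i + 1) * ((a + 1).choose (i + 1) * (n' + 1 - (i + 1)).choose (c + (a + 1))) =
            (-1 : ℤ) ^ (i + 1) * (a.choose (i + 1) * (n' - i).choose (c + 1 + a)) -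
            (-1 : ℤ) ^ i * (a.choose i * (n' - i).choose (c + 1 + a)) := by
          intro i _
          rw [show n' + 1 - (i + 1) = n' - i by omega, Nat.choose_succ_succ, show c + (a + 1) = c + 1 + a by ring]
          push_cast
          ring
        rw [Finset.sum_congr rfl s1, Finset.sum_sub_distrib]
        have s2 : ∑ i ∈ range (a + 1), (-1 : ℤ) ^ i * (a.choose i * (n' + 1 - i).choose (c + 1 + a)) =
            ∑ i ∈ range (a + 1 + 1), (-1 : ℤ) ^ i * (a.choose i * (n' + 1 - i).choose (c + 1 + a)) := by
          rw [Finset.sum_range_succ _ (a + 1)]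
          simp
        rw [s2, Finset.sum_range_succ' _ (a + 1)]
        have s3 : ∀ i ∈ range (a + 1), (-1 : ℤ) ^ (i + 1) * (a.choose (i + 1) * (n' + 1 - (i + 1)).choose (c + 1 + a)) =
            (-1 : ℤ) ^ (i + 1) * (a.choose (i + 1) * (n' - i).choose (c + 1 + a)) := by
          intro i _
          rw [show n' + 1 - (i + 1) = n' - i by omega]
        rw [Finset.sum_congr rfl s3]
        simp only [Nat.choose_zero_right, Nat.sub_zero, pow_zero, Nat.cast_one, one_mul]
        rw [show c + (a + 1) = c + 1 + a by ring]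
        ring
      rw [key, h1, h2, e3]
      ring

/-- (I1) -/
theorem el_sum {m a : ℕ} (ha : 1 ≤ a) (h : 2 * a ≤ m) :
    ∑ i ∈ range (a + 1), ((m - 2 * i).choose (a - i) : ℤ) * el m i = 0 := by
  have h1 := S_sum a m 0 (by omega)
  obtain ⟨b, rfl⟩ : ∃ b, a = b + 1 := ⟨a - 1, by omega⟩
  have h2 := S_sum b (m - 2) 0 (by omega)
  simp only [zero_add, Nat.choose_zero_right, Nat.cast_one] at h1 h2
  rw [Finset.sum_range_succ'] at h1 ⊢
  have s1 : ∀ i ∈ range (b + 1), ((m - 2 * (i + 1)).choose (b + 1 - (i + 1)) : ℤ) * el m (i + 1) =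
      (-1) ^ (i + 1) * ((b + 1).choose (i + 1) * (m - (i + 1)).choose (b + 1)) -
      (-1) ^ i * (b.choose i * (m - 2 - i).choose b) := by
    intro i hi
    rw [mem_range] at hi
    simp only [el]
    have c1 := Nat.choose_mul (n := m - (i + 1)) (k := b + 1) (s := i + 1) (by omega)
    have c2 := Nat.choose_mul (n := m - 2 - i) (k := b) (s := i) (by omega)
    rw [show m - (i + 1) - (i + 1) = m - 2 * (i + 1) by omega] at c1
    rw [show m - 2 - i - i = m - 2 * (i + 1) by omega] at c2
    rw [show b + 1 - (i + 1) = b - i by omega] at c1 ⊢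
    rw [show m - (i + 1) - 1 = m - 2 - i by omega]
    have c1' : ((m - (i + 1)).choose (b + 1) : ℤ) * ((b + 1).choose (i + 1)) =
      ((m - (i + 1)).choose (i + 1)) * ((m - 2 * (i + 1)).choose (b - i)) := by exact_mod_cast c1
    have c2' : ((m - 2 - i).choose b : ℤ) * (b.choose i) =
      ((m - 2 - i).choose i) * ((m - 2 * (i + 1)).choose (b - i)) := by exact_mod_cast c2
    linear_combination -(-1 : ℤ) ^ (i + 1) * c1' + (-1 : ℤ) ^ i * c2'
  rw [Finset.sum_congr rfl s1, Finset.sum_sub_distrib, h2]
  simp only [el, mul_zero, Nat.sub_zero, mul_one]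
  simp only [Nat.choose_zero_right, pow_zero, one_mul, Nat.cast_one, Nat.sub_zero] at h1
  linear_combination h1

theorem A_sum (b : ℕ) : ∀ N : ℕ, ∑ i ∈ range (N + 1), (i + 1) * (N - i).choose b = (N + 2).choose (b + 2) := by
  have hs : ∀ N : ℕ, ∑ i ∈ range (N + 1), (N - i).choose b = (N + 1).choose (b + 1) := by
    intro N
    induction N with
    | zero =>
      rcases b with _ | b <;> simp [Nat.choose]
    | succ N ih =>
      rw [Finset.sum_range_succ']
      simp only [Nat.add_sub_add_right, Nat.sub_zero]
      rw [ih, Nat.choose_succ_succ (N + 1) b]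
      ring
  intro N
  induction N with
  | zero =>
    rcases b with _ | b <;> simp [Nat.choose]
  | succ N ih =>
    rw [Finset.sum_range_succ']
    simp only [Nat.add_sub_add_right, Nat.sub_zero]
    have : ∑ i ∈ range (N + 1), (i + 1 + 1) * (N - i).choose b =
        ∑ i ∈ range (N + 1), (i + 1) * (N - i).choose b + ∑ i ∈ range (N + 1), (N - i).choose b := by
      rw [← Finset.sum_add_distrib]
      refine Finset.sum_congr rfl fun i _ => ?_
      ring
    rw [this, ih, hs, Nat.choose_succ_succ (N + 2) (b + 1), Nat.choose_succ_succ (N + 1) b]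
    ring

theorem He_ind : ∀ (j c d : ℕ), He j (fun r t => if r = c ∧ t = d then 1 else 0) =
    if c + d = j then (j.choose c : ℤ) else 0
  | 0, c, d => by
      simp only [He]
      by_cases h : c + d = 0
      · have hc : c = 0 := by omega
        have hd : d = 0 := by omega
        subst hc hd
        simp
      · rw [if_neg h, if_neg (by omega)]
  | j + 1, c, d => by
      simp only [He]
      rw [He_add]
      rcases c with _ | c
      · have e1 : (fun r t => if r + 1 = 0 ∧ t = d then (1 : ℤ) else 0) = fun _ _ => 0 := by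
          funext r t; simp
        rw [e1, He_zero]
        rcases d with _ | d
        · have e2 : (fun r t => if r = 0 ∧ t + 1 = 0 then (1 : ℤ) else 0) = fun _ _ => 0 := by
            funext r t; simp
          rw [e2, He_zero]
          simp
        · have e2 : (fun r t => if r = 0 ∧ t + 1 = d + 1 then (1 : ℤ) else 0) =
            fun r t => if r = 0 ∧ t = d then 1 else 0 := by
            funext r t; simp
          rw [e2, He_ind j 0 d]
          simp
          
      · have e1 : (fun r t => if r + 1 = c + 1 ∧ t = d then (1 : ℤ) else 0) =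
            fun r t => if r = c ∧ t = d then 1 else 0 := by
          funext r t; simp
        rw [e1, He_ind j c d]
        rcases d with _ | d
        · have e2 : (fun r t => if r = c + 1 ∧ t + 1 = 0 then (1 : ℤ) else 0) = fun _ _ => 0 := by
            funext r t; simp
          rw [e2, He_zero]
          by_cases h : c = j
          · subst h; simp
          · rw [if_neg (by omega), if_neg (by omega)]; simp
        · have e2 : (fun r t => if r = c + 1 ∧ t + 1 = d + 1 then (1 : ℤ) else 0) =
            fun r t => if r = c + 1 ∧ t = d then 1 else 0 := by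
            funext r t; simp
          rw [e2, He_ind j (c + 1) d]
          by_cases h : c + (d + 1) = j
          · rw [if_pos h, if_pos (by omega), if_pos (by omega), Nat.choose_succ_succ]
            push_cast
            ring
          · rw [if_neg h, if_neg (by omega), if_neg (by omega)]; simp

section U

variable {ι : Type*} [DecidableEq ι] (x : ι → ℤ)

/-- (E) -/
theorem ee_mul_eq (U : Finset ι) {m a : ℕ} (h2 : 2 * a ≤ m) (hm : m ≤ U.card) :
    ee x U a * ee x U (m - a) = ∑ i ∈ range (a + 1), ((m - 2 * i).choose (a - i) : ℤ) * MM x U i (m - 2 * i) := by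
  rw [ee_mul, QQ_eq_NN, NN_eq_sum]
  have hval : ∀ i j : ℕ, He j (fun r t => if i + r = a ∧ i + t = m - a then (1 : ℤ) else 0) =
      if i ≤ a ∧ j = m - 2 * i then ((m - 2 * i).choose (a - i) : ℤ) else 0 := by
    intro i j
    by_cases hi : i ≤ a
    · have : (fun r t => if i + r = a ∧ i + t = m - a then (1 : ℤ) else 0) =
          fun r t => if r = a - i ∧ t = m - a - i then 1 else 0 := by
        funext r t
        congr 1
        apply propext
        constructor <;> rintro ⟨h3, h4⟩ <;> constructor <;> omega
      rw [this, He_ind]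
      by_cases hj : j = m - 2 * i
      · rw [if_pos (by omega), if_pos ⟨hi, hj⟩, hj]
      · rw [if_neg (by omega), if_neg (fun h => hj h.2)]
    · rw [if_neg (fun h => hi h.1)]
      refine (He_congr j _ (fun _ _ => 0) ?_).trans (He_zero j)
      intro r t _
      rw [if_neg]
      omega
  have h3 : ∀ i ∈ range (U.card + 1), ∑ j ∈ range (U.card + 1),
      He j (fun r t => if i + r = a ∧ i + t = m - a then (1 : ℤ) else 0) * MM x U i j =
      if i ≤ a then ((m - 2 * i).choose (a - i) : ℤ) * MM x U i (m - 2 * i) else 0 := by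
    intro i hi
    by_cases hia : i ≤ a
    · rw [if_pos hia, Finset.sum_eq_single (m - 2 * i)]
      · rw [hval, if_pos ⟨hia, rfl⟩]
      · intro j _ hj
        rw [hval, if_neg (fun h => hj h.2), zero_mul]
      · intro hn
        exact absurd (mem_range.2 (by omega)) hn
    · rw [if_neg hia]
      refine Finset.sum_eq_zero fun j _ => ?_
      rw [hval, if_neg (fun h => hia h.1), zero_mul]
  rw [Finset.sum_congr rfl h3]
  symm
  apply Finset.sum_subset_zero_on_sdiff
  · intro i hi
    rw [mem_range] at *
    omega
  · intro i hi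
    simp only [mem_sdiff, mem_range] at hi
    rw [if_neg (by omega)]
  · intro i hi
    rw [mem_range] at hi
    rw [if_pos (by omega)]

theorem ee_zero (U : Finset ι) : ee x U 0 = 1 := by simp [ee]

theorem MM_zero (U : Finset ι) {m : ℕ} (hm : m ≤ U.card) : MM x U 0 m = ee x U m := by
  have := ee_mul_eq x U (a := 0) (m := m) (by omega) hm
  simpa [ee_zero] using this.symm

/-- congruence for `M(i, m-2i)` -/
theorem MM_congr (U : Finset ι) (N : ℤ) {m : ℕ} (hm1 : 1 ≤ m) (hm : m ≤ U.card)
    (hN : ∀ a, 1 ≤ a → 2 * a ≤ m → N ∣ ee x U a * ee x U (m - a)) :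
    ∀ i, 2 * i ≤ m → N ∣ MM x U i (m - 2 * i) - el m i * ee x U m := by
  intro i
  induction i using Nat.strong_induction_on with
  | _ a ih =>
    intro h2
    rcases Nat.eq_zero_or_pos a with h0 | hpos
    · subst h0
      simp only [mul_zero, Nat.sub_zero, el, one_mul]
      rw [MM_zero x U hm]; simp
    · have h1 := ee_mul_eq x U h2 hm
      have h3 := hN a hpos h2
      rw [h1, Finset.sum_range_succ] at h3
      have h4 := el_sum hpos h2
      rw [Finset.sum_range_succ] at h4
      have h5 : N ∣ ∑ i ∈ range a, (((m - 2 * i).choose (a - i) : ℤ) * MM x U i (m - 2 * i) -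
          ((m - 2 * i).choose (a - i) : ℤ) * el m i * ee x U m) := by
        apply Finset.dvd_sum
        intro i hi
        rw [mem_range] at hi
        have := ih i hi (by omega)
        have e : ((m - 2 * i).choose (a - i) : ℤ) * MM x U i (m - 2 * i) -
          ((m - 2 * i).choose (a - i) : ℤ) * el m i * ee x U m =
          ((m - 2 * i).choose (a - i) : ℤ) * (MM x U i (m - 2 * i) - el m i * ee x U m) := by ring
        rw [e]
        exact Dvd.dvd.mul_left this _
      rw [Finset.sum_sub_distrib, ← Finset.sum_mul] at h5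
      have h6 := dvd_sub h3 h5
      have h7 : ∑ i ∈ range a, ((m - 2 * i).choose (a - i) : ℤ) * el m i = - el m a := by
        simp only [Nat.sub_self, Nat.choose_zero_right, Nat.cast_one, one_mul] at h4
        linear_combination h4
      rw [h7] at h6
      simp only [Nat.sub_self, Nat.choose_zero_right, Nat.cast_one, one_mul] at h6
      have e : MM x U a (m - 2 * a) - el m a * ee x U m =
        ∑ i ∈ range a, ((m - 2 * i).choose (a - i) : ℤ) * MM x U i (m - 2 * i) + MM x U a (m - 2 * a) -
        (∑ i ∈ range a, ((m - 2 * i).choose (a - i) : ℤ) * MM x U i (m - 2 * i) -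
          -el m a * ee x U m) := by ring
      rw [e]
      exact h6

end U

end Pool.Agent.V11294.Perm
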