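import Pool.Agent.V11294.Perm.C

/-! The evaluation modulo `p^2`. -/

namespace Pool.Agent.V11294.Perm

open Finset Equiv

variable (p : ℕ) [hp : Fact p.Prime]

/-- the points `0, ..., p-1` -/
def xx : Fin p → ℤ := fun i => (i : ℕ)

theorem prod_fin : ∏ i : Fin p, ((Polynomial.X : Polynomial (ZMod p)) + Polynomial.C (((i : ℕ) : ZMod p))) =
    Polynomial.X ^ p - Polynomial.X := by
  classical
  have h1 : ∏ a : ZMod p, ((Polynomial.X : Polynomial (ZMod p)) - Polynomial.C a) =
      Polynomial.X ^ p - Polynomial.X := by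
    have hr := FiniteField.roots_X_pow_card_sub_X (ZMod p)
    rw [ZMod.card] at hr
    have hdeg := FiniteField.X_pow_card_sub_X_natDegree_eq (ZMod p) hp.out.one_lt
    have hmonic : (Polynomial.X ^ p - Polynomial.X : Polynomial (ZMod p)).Monic := by
      apply Polynomial.monic_X_pow_sub
      rw [Polynomial.degree_X]
      exact_mod_cast hp.out.one_lt
    have := Polynomial.prod_multiset_X_sub_C_of_monic_of_roots_card_eq hmonic
      (by rw [hr, hdeg]; simp)
    rw [hr] at this
    exact this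
  rw [← h1]
  refine Fintype.prod_bijective (fun i : Fin p => -(((i : ℕ) : ZMod p))) ?_ _ _ ?_
  · rw [Fintype.bijective_iff_injective_and_card]
    constructor
    · intro i j h
      have h2 : ((i : ℕ) : ZMod p) = ((j : ℕ) : ZMod p) := by simpa using h
      rw [ZMod.natCast_eq_natCast_iff'] at h2
      rw [Nat.mod_eq_of_lt i.2, Nat.mod_eq_of_lt j.2] at h2
      exact Fin.ext h2
    · simp
  · intro i
    simp

theorem ee_cast (a : ℕ) (ha : a ≤ p) : ((ee (xx p) univ a : ℤ) : ZMod p) =
    (Polynomial.X ^ p - Polynomial.X : Polynomial (ZMod p)).coeff (p - a) := by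
  rw [← prod_fin p, Finset.prod_X_add_C_coeff _ _ (by simp)]
  simp only [ee, xx]
  push_cast
  congr 2
  simp
  omega

theorem ee_dvd {a : ℕ} (h1 : 1 ≤ a) (h2 : a < p - 1) : (p : ℤ) ∣ ee (xx p) univ a := by
  have := hp.out.two_le
  rw [← ZMod.intCast_zmod_eq_zero_iff_dvd, ee_cast p a (by omega)]
  rw [Polynomial.coeff_sub, Polynomial.coeff_X_pow, Polynomial.coeff_X, if_neg (by omega),
    if_neg (by omega)]
  simp

theorem ee_top : (p : ℤ) ∣ ee (xx p) univ (p - 1) + 1 := by
  have := hp.out.two_le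
  rw [← ZMod.intCast_zmod_eq_zero_iff_dvd]
  push_cast
  rw [ee_cast p (p - 1) (by omega)]
  rw [Polynomial.coeff_sub, Polynomial.coeff_X_pow, Polynomial.coeff_X, if_neg (by omega),
    if_pos (by omega)]
  simp

/-- the terms -/
def tt (n i j : ℕ) : ℤ := ((n - i - j).choose i : ℤ) * ((-1) ^ i * GG j i i)

theorem tt_eq_zero {n i j : ℕ} (hj : j ≤ n) (h : n < 2 * i + j) : tt n i j = 0 := by
  rw [tt, Nat.choose_eq_zero_of_lt (by omega)]
  simp

theorem tt_odd {n i j : ℕ} (h : j % 2 = 1) : tt n i j = 0 := by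
  obtain ⟨q, rfl⟩ : ∃ q, j = 2 * q + 1 := ⟨j / 2, by omega⟩
  rw [tt, GG_odd]; simp

theorem permanent_sum (H : ℕ) (hH : p = 2 * H + 1) :
    (Matrix.of fun i l : Fin p => xx p i - xx p l + if i = l then (1 : ℤ) else 0).permanent =
      ∑ h ∈ range (H + 1), ∑ i ∈ range (h + 1), tt p i (2 * h - 2 * i) * MM (xx p) univ i (2 * h - 2 * i) := by
  rw [permanent_expand, SS_eq_NN, NN_eq_sum]
  simp only [gK_KK, card_univ, Fintype.card_fin]
  rw [← Finset.sum_product', Finset.sum_sigma']
  symm
  refine Finset.sum_of_injOn (fun y : (Σ _ : ℕ, ℕ) => (y.2, 2 * y.1 - 2 * y.2)) ?_ ?_ ?_ ?_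
  · rintro ⟨a, b⟩ hab ⟨c, d⟩ hcd h
    simp only [coe_sigma, Set.mem_sigma_iff, coe_range, Set.mem_Iio] at hab hcd
    simp only [Prod.mk.injEq] at h
    obtain ⟨h1, h2⟩ := h
    subst h1
    have : a = c := by omega
    subst this
    rfl
  · rintro ⟨a, b⟩ hab
    simp only [coe_sigma, Set.mem_sigma_iff, coe_range, Set.mem_Iio] at hab
    simp only [coe_product, coe_range, Set.mem_prod, Set.mem_Iio]
    omega
  · rintro ⟨i, j⟩ hij hn
    simp only [mem_product, mem_range] at hij
    by_cases hj : j % 2 = 1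
    · have := tt_odd (n := p) (i := i) hj
      rw [tt] at this
      simp only
      rw [this, zero_mul]
    · by_cases hb : p < 2 * i + j
      · have := tt_eq_zero (n := p) (i := i) (j := j) (by omega) hb
        rw [tt] at this
        simp only
        rw [this, zero_mul]
      · exfalso
        apply hn
        refine ⟨⟨i + j / 2, i⟩, ?_, ?_⟩
        · simp only [coe_sigma, Set.mem_sigma_iff, coe_range, Set.mem_Iio]
          omega
        · simp only [Prod.mk.injEq, true_and]
          omega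
  · rintro ⟨a, b⟩ hab
    rfl

/-- key formula for the coefficients -/
theorem tt_el {h i : ℕ} (h1 : 1 ≤ h) (hi : i ≤ h) (n : ℕ) (hn : 2 * h ≤ n) :
    tt n i (2 * h - 2 * i) * el (2 * h) i * (h - i).factorial =
      (n - 2 * h + i).choose i * (h.factorial * ((2 * h : ℕ) * (2 * h - i - 1).factorial)) := by
  have e1 := GG_even i (h - i)
  have e2 := el_factorial (m := 2 * h) (i := i) (by omega) (by omega)
  rw [show 2 * (h - i) = 2 * h - 2 * i by omega, show i + (h - i) = h by omega] at e1
  rw [tt, show n - i - (2 * h - 2 * i) = n - 2 * h + i by omega]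
  have hs : ((-1 : ℤ) ^ i) * (-1) ^ i = 1 := by
    rw [← mul_pow]; simp
  push_cast at *
  linear_combination ((n - 2 * h + i).choose i : ℤ) * (-1) ^ i * el (2 * h) i * e1 +
    ((n - 2 * h + i).choose i : ℤ) * (-1) ^ i * h.factorial * e2 +
    ((n - 2 * h + i).choose i : ℤ) * h.factorial * (2 * h) * (2 * h - i - 1).factorial * hs

theorem fact_unit {k : ℕ} (hk : k < p) : ((k.factorial : ℕ) : ZMod p) ≠ 0 := by
  rw [Ne, ZMod.natCast_eq_zero_iff]
  intro h
  rw [hp.out.dvd_factorial] at h
  omega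

theorem choose_cast {m : ℕ} (hm : m < p) : ∀ i, i < m →
    ((m - 1 - i).factorial : ZMod p) * (i.factorial * (p - m + i).choose i) =
      (-1) ^ i * (m - 1).factorial := by
  intro i
  induction i with
  | zero => intro _; simp
  | succ i ih =>
    intro h
    have h1 := ih (by omega)
    have e1 : (m - 1 - i).factorial = (m - 1 - i) * (m - 1 - (i + 1)).factorial := by
      rw [show m - 1 - i = (m - 1 - (i + 1)) + 1 by omega, Nat.factorial_succ]
    have e2 : (i + 1) * (p - m + (i + 1)).choose (i + 1) = (p - m + i + 1) * (p - m + i).choose i := by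
      have := Nat.add_one_mul_choose_eq (p - m + i) i
      rw [show p - m + (i + 1) = p - m + i + 1 by ring]
      linarith
    have e3 : ((p - m + i + 1 : ℕ) : ZMod p) = - ((m - 1 - i : ℕ) : ZMod p) := by
      rw [eq_neg_iff_add_eq_zero, ← Nat.cast_add, ZMod.natCast_eq_zero_iff]
      exact ⟨1, by omega⟩
    have e1' : ((m - 1 - i).factorial : ZMod p) = ((m - 1 - i : ℕ) : ZMod p) * (m - 1 - (i + 1)).factorial := by
      rw [e1]; push_cast; ring
    have e2' : ((i + 1 : ℕ) : ZMod p) * (p - m + (i + 1)).choose (i + 1) =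
        - ((m - 1 - i : ℕ) : ZMod p) * (p - m + i).choose i := by
      rw [← e3]; exact_mod_cast congrArg (Nat.cast (R := ZMod p)) e2
    rw [e1'] at h1
    rw [Nat.factorial_succ]
    push_cast at *
    rw [pow_succ]
    linear_combination ((m - 1 - (i + 1)).factorial : ZMod p) * (i.factorial) * e2' - h1

theorem small_sum {h : ℕ} (h1 : 1 ≤ h) (h2 : 2 * h < p) :
    (p : ℤ) ∣ ∑ i ∈ range (h + 1), tt p i (2 * h - 2 * i) * el (2 * h) i := by
  rw [← ZMod.intCast_zmod_eq_zero_iff_dvd]
  push_cast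
  have key : ∀ i ∈ range (h + 1), ((tt p i (2 * h - 2 * i) : ℤ) : ZMod p) * ((el (2 * h) i : ℤ) : ZMod p) =
      ((2 * h).factorial : ZMod p) * (((-1) ^ i * (h.choose i : ℤ) : ℤ) : ZMod p) := by
    intro i hi
    rw [mem_range] at hi
    have e1 := congrArg (Int.cast (R := ZMod p)) (tt_el h1 (by omega : i ≤ h) p (by omega))
    have e2 := choose_cast p (m := 2 * h) h2 i (by omega)
    have e3 : h.choose i * i.factorial * (h - i).factorial = h.factorial :=
      Nat.choose_mul_factorial_mul_factorial (by omega)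
    have e3' := congrArg (Nat.cast (R := ZMod p)) e3
    have e4 : (2 * h).factorial = (2 * h) * (2 * h - 1).factorial := by
      rw [Nat.mul_factorial_pred (by omega)]
    have e4' := congrArg (Nat.cast (R := ZMod p)) e4
    have hu1 := fact_unit p (k := h - i) (by omega)
    have hu2 := fact_unit p (k := i) (by omega)
    rw [show 2 * h - i - 1 = 2 * h - 1 - i by omega] at e1
    push_cast at *
    apply mul_right_cancel₀ (mul_ne_zero hu1 hu2)
    linear_combination (i.factorial : ZMod p) * e1 + (h.factorial : ZMod p) * (2 * h) * e2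
      - ((2 * h).factorial : ZMod p) * (-1) ^ i * e3' - (-1) ^ i * (h.factorial : ZMod p) * e4'
  rw [Finset.sum_congr rfl key, ← Finset.mul_sum, ← Int.cast_sum,
    Int.alternating_sum_range_choose_of_ne (by omega)]
  simp

theorem top_sum {H : ℕ} (h1 : 1 ≤ H) (hH : p = 2 * H + 1) :
    (H + 1 : ℤ) * ∑ i ∈ range (H + 1), tt p i (2 * H - 2 * i) * el (2 * H) i = 2 * p * (p - 1).factorial := by
  have key : ∀ i ∈ range (H + 1), tt p i (2 * H - 2 * i) * el (2 * H) i =
      2 * (H.factorial : ℤ) ^ 2 * (((i + 1) * (2 * H - 1 - i).choose (H - 1) : ℕ) : ℤ) := by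
    intro i hi
    rw [mem_range] at hi
    have e1 := tt_el h1 (by omega : i ≤ H) p (by omega)
    have e2 : (2 * H - 1 - i).choose (H - 1) * (H - 1).factorial * (H - i).factorial =
        (2 * H - 1 - i).factorial := by
      have := Nat.choose_mul_factorial_mul_factorial (n := 2 * H - 1 - i) (k := H - 1) (by omega)
      rwa [show 2 * H - 1 - i - (H - 1) = H - i by omega] at this
    have e2' : ((2 * H - 1 - i).choose (H - 1) : ℤ) * (H - 1).factorial * (H - i).factorial =
        (2 * H - 1 - i).factorial := by exact_mod_cast e2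
    have e3 : (H.factorial : ℤ) = H * (H - 1).factorial := by
      have : H.factorial = H * (H - 1).factorial := by rw [Nat.mul_factorial_pred (by omega)]
      exact_mod_cast this
    have e4 : (p - 2 * H + i).choose i = i + 1 := by
      rw [show p - 2 * H + i = i + 1 by omega]
      simp
    rw [e4, show 2 * H - i - 1 = 2 * H - 1 - i by omega] at e1
    have hpos : ((H - i).factorial : ℤ) ≠ 0 := by exact_mod_cast Nat.factorial_ne_zero _
    apply mul_right_cancel₀ hpos
    rw [e1]
    push_cast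
    linear_combination -(((i : ℤ) + 1) * H.factorial * (2 * H)) * e2' -
      2 * (H.factorial : ℤ) * (i + 1) * ((2 * H - 1 - i).choose (H - 1) : ℤ) * (H - i).factorial * e3
  rw [Finset.sum_congr rfl key, ← Finset.mul_sum, ← Nat.cast_sum]
  have hA := A_sum (H - 1) (2 * H - 1)
  have hsub : ∑ i ∈ range (H + 1), (i + 1) * (2 * H - 1 - i).choose (H - 1) =
      ∑ i ∈ range (2 * H - 1 + 1), (i + 1) * (2 * H - 1 - i).choose (H - 1) := by
    apply Finset.sum_subset
    · intro i hi
      rw [mem_range] at *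
      omega
    · intro i hi hn
      rw [mem_range] at *
      rw [Nat.choose_eq_zero_of_lt (by omega), mul_zero]
  rw [hsub, hA, show 2 * H - 1 + 2 = 2 * H + 1 by omega, show H - 1 + 2 = H + 1 by omega]
  have e5 : (2 * H + 1).choose (H + 1) * (H + 1).factorial * H.factorial = (2 * H + 1).factorial := by
    have := Nat.choose_mul_factorial_mul_factorial (n := 2 * H + 1) (k := H + 1) (by omega)
    rwa [show 2 * H + 1 - (H + 1) = H by omega] at this
  have e5' : ((2 * H + 1).choose (H + 1) : ℤ) * (H + 1).factorial * H.factorial = (2 * H + 1).factorial := by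
    exact_mod_cast e5
  have e6 : ((H + 1).factorial : ℤ) = (H + 1) * H.factorial := by
    rw [Nat.factorial_succ]; push_cast; ring
  have e7 : ((2 * H + 1).factorial : ℤ) = (2 * H + 1) * (2 * H).factorial := by
    rw [Nat.factorial_succ]; push_cast; ring
  subst hH
  rw [show 2 * H + 1 - 1 = 2 * H by omega]
  push_cast
  rw [e6] at e5'
  linear_combination 2 * e5' + 2 * e7

theorem main (hp2 : p ≠ 2) :
    (Matrix.of fun i l : Fin p => xx p i - xx p l + if i = l then (1 : ℤ) else 0).permanent ≡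
      4 * p + 1 [ZMOD (p : ℤ) ^ 2] := by
  have hodd : p % 2 = 1 := by
    rcases hp.out.eq_two_or_odd with h | h
    · exact absurd h hp2
    · exact h
  have hpos := hp.out.two_le
  obtain ⟨H, hH⟩ : ∃ H, p = 2 * H + 1 := ⟨p / 2, by omega⟩
  have hH1 : 1 ≤ H := by omega
  rw [permanent_sum p H hH]
  -- congruence for M
  have hM : ∀ h, 1 ≤ h → h ≤ H → ∀ i ∈ range (h + 1), (p : ℤ) ^ 2 ∣
      MM (xx p) univ i (2 * h - 2 * i) - el (2 * h) i * ee (xx p) univ (2 * h) := by
    intro h h1 h2 i hi
    rw [mem_range] at hi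
    refine MM_congr (xx p) univ ((p : ℤ) ^ 2) (m := 2 * h) (by omega) (by simp; omega) ?_ i (by omega)
    intro a ha1 ha2
    rw [pow_two]
    exact mul_dvd_mul (ee_dvd p ha1 (by omega)) (ee_dvd p (by omega) (by omega))
  have hW : ∀ h, 1 ≤ h → h ≤ H → (p : ℤ) ^ 2 ∣
      ∑ i ∈ range (h + 1), tt p i (2 * h - 2 * i) * MM (xx p) univ i (2 * h - 2 * i) -
      (∑ i ∈ range (h + 1), tt p i (2 * h - 2 * i) * el (2 * h) i) * ee (xx p) univ (2 * h) := by
    intro h h1 h2
    rw [Finset.sum_mul, ← Finset.sum_sub_distrib]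
    apply Finset.dvd_sum
    intro i hi
    have := hM h h1 h2 i hi
    have e : tt p i (2 * h - 2 * i) * MM (xx p) univ i (2 * h - 2 * i) -
        tt p i (2 * h - 2 * i) * el (2 * h) i * ee (xx p) univ (2 * h) = tt p i (2 * h - 2 * i) *
        (MM (xx p) univ i (2 * h - 2 * i) - el (2 * h) i * ee (xx p) univ (2 * h)) := by ring
    rw [e]
    exact Dvd.dvd.mul_left this _
  have hsmall : ∀ h, 1 ≤ h → h < H → (p : ℤ) ^ 2 ∣
      ∑ i ∈ range (h + 1), tt p i (2 * h - 2 * i) * MM (xx p) univ i (2 * h - 2 * i) := by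
    intro h h1 h2
    have a1 := hW h h1 (by omega)
    have a2 : (p : ℤ) ^ 2 ∣ (∑ i ∈ range (h + 1), tt p i (2 * h - 2 * i) * el (2 * h) i) *
        ee (xx p) univ (2 * h) := by
      rw [pow_two]
      exact mul_dvd_mul (small_sum p h1 (by omega)) (ee_dvd p (by omega) (by omega))
    have := dvd_add a1 a2
    simpa using this
  have hzero : ∑ i ∈ range (0 + 1), tt p i (2 * 0 - 2 * i) * MM (xx p) univ i (2 * 0 - 2 * i) = 1 := by
    rw [Finset.sum_range_one]
    simp only [mul_zero, Nat.sub_zero]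
    rw [MM_zero (xx p) univ (m := 0) (by simp), ee_zero]
    simp [tt, GG]
  have htop : (p : ℤ) ^ 2 ∣
      ∑ i ∈ range (H + 1), tt p i (2 * H - 2 * i) * MM (xx p) univ i (2 * H - 2 * i) - 4 * p := by
    have a1 := hW H hH1 le_rfl
    have a2 := top_sum p hH1 hH
    set W := ∑ i ∈ range (H + 1), tt p i (2 * H - 2 * i) * MM (xx p) univ i (2 * H - 2 * i)
    set V := ∑ i ∈ range (H + 1), tt p i (2 * H - 2 * i) * el (2 * H) i
    have e : 2 * H = p - 1 := by omega
    rw [e] at a1
    obtain ⟨b, hb⟩ := ee_top p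
    have hwil : (p : ℤ) ∣ ((p - 1).factorial : ℤ) + 1 := by
      have := ZMod.wilsons_lemma p
      rw [← ZMod.intCast_zmod_eq_zero_iff_dvd]
      push_cast
      rw [this]; ring
    obtain ⟨c, hc⟩ := hwil
    obtain ⟨d, hd⟩ := a1
    have hpH : (p : ℤ) = 2 * H + 1 := by exact_mod_cast hH
    -- (p+1) W ≡ 4p
    have h5 : (p : ℤ) ^ 2 ∣ (p + 1) * (W - 4 * p) := by
      have e1 : ee (xx p) univ (p - 1) = p * b - 1 := by linear_combination hb
      have e2 : ((p - 1).factorial : ℤ) = p * c - 1 := by linear_combination hc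
      rw [e1] at hd
      rw [e2] at a2
      refine ⟨(p + 1) * d - 4 - 4 * c - 4 * b + 4 * p * b * c, ?_⟩
      have h6 : ((p : ℤ) + 1) * V = 4 * p * (p * c - 1) := by
        have : (p : ℤ) + 1 = 2 * (H + 1) := by rw [hpH]; ring
        rw [this]
        linear_combination 2 * a2
      linear_combination ((p : ℤ) + 1) * hd + (p * b - 1) * h6
    have hcop : IsCoprime ((p : ℤ) ^ 2) (p + 1) := by
      apply IsCoprime.pow_left
      exact ⟨-1, 1, by ring⟩
    exact hcop.dvd_of_dvd_mul_left h5
  rw [Finset.sum_range_succ]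
  have hmid : (p : ℤ) ^ 2 ∣ ∑ h ∈ range H, ∑ i ∈ range (h + 1),
      tt p i (2 * h - 2 * i) * MM (xx p) univ i (2 * h - 2 * i) - 1 := by
    obtain ⟨H', rfl⟩ : ∃ H', H = H' + 1 := ⟨H - 1, by omega⟩
    rw [Finset.sum_range_succ', hzero, add_sub_cancel_right]
    apply Finset.dvd_sum
    intro h hh
    rw [mem_range] at hh
    exact hsmall (h + 1) (by omega) (by omega)
  rw [Int.modEq_iff_dvd]
  obtain ⟨u, hu⟩ := hmid
  obtain ⟨v, hv⟩ := htop
  exact ⟨-(u + v), by linear_combination -hu - hv⟩

end Pool.Agent.V11294.Perm
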